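import Pool.Agent.Helper38.FW.GoalsG
import Pool.Agent.Helper85.PP.DCND
import Pool.Agent.Helper58.PP.DTAM
import Pool.Agent.Helper48.PW.WASM

/-!
# Project W (MP_fc6b1e_nt), general weights, packet W-G_WT: the weight functions
-/

set_option autoImplicit false

namespace Pool.Agent.Helper32.FW

open NumberField Polynomial Module IsDedekindDomain
open Pool.Agent.Helper51.RP Pool.Agent.Helper42.RD Pool.Agent.Helper42.PP Pool.Agent.Helper42.PP1
open Pool.Agent.Helper42.PB Pool.Agent.Helper11.PP Pool.Agent.Helper11.LE Pool.Agent.Helper42.PW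
open Pool.Agent.Helper38.FD (Chr CutsOut)
open Pool.Agent.Helper77.PPB (ChN)
open Pool.Agent.Helper38.FW (condP LocE)

theorem g_wt : Pool.Agent.Helper38.FW.G_WT := by
  intro h1 p hp K K₁ _ _ _ _ _ ε hcyc j hj εk hεk nf cf k1 k3 Sp hSpm e hE
  classical
  -- the primes of `K₁` above `p`
  have hup : up K₁ Sp = {W : HeightOneSpectrum (𝓞 K₁) | W.valuation K₁ (p : K₁) < 1} := by
    have e1 : ∀ W : HeightOneSpectrum (𝓞 K₁), (W.valuation K₁ (p : K₁) < 1 ↔
        (Pool.Agent.Helper40.RS.bel K W).valuation K (p : K) < 1) := by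
      intro W
      have e2 : W.valuation K₁ (p : K₁) < 1 ↔ (p : 𝓞 K₁) ∈ W.asIdeal := by
        rw [← W.valuation_lt_one_iff_mem (K := K₁)]
        simp
      have e3 : (Pool.Agent.Helper40.RS.bel K W).valuation K (p : K) < 1 ↔
          (p : 𝓞 K) ∈ (Pool.Agent.Helper40.RS.bel K W).asIdeal := by
        rw [← (Pool.Agent.Helper40.RS.bel K W).valuation_lt_one_iff_mem (K := K)]
        simp
      rw [e2, e3]
      exact natCast_bel p W
    ext W
    constructor
    · rintro ⟨v, hv, hWv⟩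
      have e : Pool.Agent.Helper40.RS.bel K W = v := HeightOneSpectrum.ext hWv
      rw [Set.mem_ofPred_eq, e1, e]
      exact (hSpm v).1 hv
    · intro hW
      exact ⟨Pool.Agent.Helper40.RS.bel K W, (hSpm _).2 ((e1 W).1 hW), above_bel W⟩
  set gz := Pool.Agent.Helper15.PP.gZ p (up K₁ Sp) with hgz
  have hcl : ∀ a b : K₁ˣ, clp p a = clp p b → a / b ∈ gz := by
    intro a b hab
    have e := QuotientGroup.eq.1 hab
    obtain ⟨y, hy⟩ := e
    have hy' : y ^ p = a⁻¹ * b := hy
    refine ⟨y, fun w _ => ?_⟩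
    have e2 : ((a / b : K₁ˣ) : K₁) * (y : K₁) ^ p = 1 := by
      have e3 : (a / b) * y ^ p = 1 := by
        rw [hy']
        rw [div_eq_mul_inv, mul_assoc, mul_comm b⁻¹, mul_assoc, mul_inv_cancel, mul_one,
          mul_inv_cancel]
      have := congrArg (fun u : K₁ˣ => (u : K₁)) e3
      simpa using this
    rw [e2, sub_self, map_zero]
    exact ⟨zero_lt_one, zero_le⟩
  -- the equivalence
  set R : ClP p K₁ → ClP p K₁ → Prop := fun c c' => ∃ a a' : K₁ˣ, clp p a = c ∧ clp p a' = c' ∧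
    c' ∈ BSet p K ε ∧ a / a' ∈ gz with hR
  have hRe : ∀ c c' d' : ClP p K₁, R c c' → R c d' → e (nf c', cf c') = e (nf d', cf d') := by
    rintro c c' d' ⟨a, a', ha, rfl, hc', hl⟩ ⟨b, b', hb, rfl, hd', hl'⟩
    have e1 : a' / b' = (a / a')⁻¹ * (a / b) * (b / b') := by
      rw [inv_div, div_mul_div_cancel, div_mul_div_cancel]
    have e2 : a / b ∈ gz := hcl a b (ha.trans hb.symm)
    have e3 : a' / b' ∈ gz := by
      rw [e1]
      exact gz.mul_mem (gz.mul_mem (gz.inv_mem hl) e2) hl'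
    refine hE.loc _ ⟨(k1 _ hc').1, (k3 _ hc').1⟩ _ ⟨(k1 _ hd').1, (k3 _ hd').1⟩ ?_
    intro σ
    refine h1 p K K₁ ε hcyc j hj εk hεk nf cf (fun c hc => (k1 c hc).1) k3 a' b' hc' hd' ?_ σ
    rw [← hup]
    exact e3
  have hRm : ∀ a a' : K₁ˣ, a / a' ∈ gz → ∀ c' : ClP p K₁, R (clp p a) c' → R (clp p a') c' := by
    rintro a a' hl c' ⟨b, b', hb, rfl, hc', hl'⟩
    refine ⟨a', b', rfl, rfl, hc', ?_⟩
    have e1 : a' / b' = (a / a')⁻¹ * (a / b) * (b / b') := by
      rw [inv_div, div_mul_div_cancel, div_mul_div_cancel]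
    rw [e1]
    exact gz.mul_mem (gz.mul_mem (gz.inv_mem hl) (hcl a b hb.symm)) hl'
  have hRr : ∀ c ∈ BSet p K ε, R c c := by
    rintro c hc
    obtain ⟨a, rfl⟩ := QuotientGroup.mk_surjective c
    refine ⟨a, a, rfl, rfl, hc, ?_⟩
    rw [div_self']
    exact gz.one_mem
  set E : (ClP p K₁ → Prop) → ℕ := fun Q =>
    if h : ∃ c', Q c' then e (nf h.choose, cf h.choose) else 1 with hEd
  have hE1 : ∀ Q, 1 ≤ E Q := by
    intro Q
    simp only [hEd]
    split_ifs with h
    · exact hE.one_le _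
    · exact le_rfl
  refine ⟨fun c => condS K Sp c * E (R c), ⟨fun c => E (R c), fun c => hE1 _, ?_, fun c => rfl⟩, ?_⟩
  · intro a a' _ _ hl
    have h2 : a / a' ∈ gz := hl
    have h3 : a' / a ∈ gz := by
      have e : a' / a = (a / a')⁻¹ := (inv_div _ _).symm
      rw [e]
      exact gz.inv_mem h2
    have h4 : R (clp p a) = R (clp p a') :=
      funext fun c' => propext ⟨hRm a a' h2 c', hRm a' a h3 c'⟩
    change E (R (clp p a)) = E (R (clp p a'))
    rw [h4]
  · intro c hc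
    have h2 : E (R c) = e (nf c, cf c) := by
      have h3 : ∃ c', R c c' := ⟨c, hRr c hc⟩
      have h4 : E (R c) = e (nf h3.choose, cf h3.choose) := dif_pos h3
      rw [h4]
      exact hRe c _ _ h3.choose_spec (hRr c hc)
    have h5 : condS K Sp c = condP p K (nf c) := by
      unfold condS condP
      refine finprod_congr fun v => ?_
      have h6 : (ValC c v ∧ v ∉ Sp) ↔ (RamIn (nf c) v ∧ (p : 𝓞 K) ∉ v.asIdeal) := by
        have h7 : v ∈ Sp ↔ (p : 𝓞 K) ∈ v.asIdeal := by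
          rw [hSpm, ← v.valuation_lt_one_iff_mem (K := K)]
          simp
        rw [h7]
        refine and_congr_left fun hv => ?_
        obtain ⟨hc1, a, rfl, ha⟩ := hc
        have hPw : ¬ Pw p a := fun h => hc1 (Pool.Agent.Helper79.PP.clp_eq_one.2 h)
        have h8 := k1 (clp p a) ⟨hc1, a, rfl, ha⟩
        rw [Pool.Agent.Helper85.PP.valC_iff]
        exact (Pool.Agent.Helper58.PP.d_tam p K K₁ ε hcyc j hj (nf (clp p a)) h8.1 a hPw
          (h8.2 a rfl) v hv).symm
      rw [show (ValC c v ∧ v ∉ Sp) = (RamIn (nf c) v ∧ (p : 𝓞 K) ∉ v.asIdeal) from propext h6]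
    change condS K Sp c * E (R c) = condP p K (nf c) * e (nf c, cf c)
    rw [h2, h5]

end Pool.Agent.Helper32.FW
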